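import Pool.Agent.helper84.NR.SpecW

set_option autoImplicit false

namespace Pool.Agent.helper84.NR

open scoped Classical
open Finset

theorem CA1 : CA1_stmt := by
  intro V F M x y A B v m m' a b hAx hBy hA hB
  obtain ⟨hE1, hE2⟩ := h_EDG V F M
  obtain ⟨hm, ha0, ham, hainj, haE, haY, haF⟩ := hA
  obtain ⟨hm', hb0, hbm, hbinj, hbE, hbX, hbF⟩ := hB
  have haA : ∀ i, i ≤ m → OnV M.toCyc A (a i) := by
    intro i hi
    rcases Nat.lt_or_ge i m with h | h
    · exact (hE1 A _ _ (haE i h)).1
    · have h1 : i = (m - 1) + 1 := by omega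
      rw [h1]
      exact (hE1 A _ _ (haE (m - 1) (by omega))).2.1
  have hbB : ∀ i, i ≤ m' → OnV M.toCyc B (b i) := by
    intro i hi
    rcases Nat.lt_or_ge i m' with h | h
    · exact (hE1 B _ _ (hbE i h)).1
    · have h1 : i = (m' - 1) + 1 := by omega
      rw [h1]
      exact (hE1 B _ _ (hbE (m' - 1) (by omega))).2.1
  obtain ⟨q, hq⟩ : ∃ q : ℕ → V, q = fun j => if j ≤ m then a j else b (m + m' - j) := ⟨_, rfl⟩
  have hqa : ∀ i, i ≤ m → q i = a i := by
    intro i hi
    rw [hq]
    exact if_pos hi
  have hqb : ∀ i, m ≤ i → q i = b (m + m' - i) := by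
    intro i hi
    rcases Nat.lt_or_ge m i with h | h
    · rw [hq]
      exact if_neg (by omega)
    · have h1 : i = m := by omega
      rw [hqa i h, h1, ham, ← hbm]
      congr 1
      omega
  -- the edges of the second part
  have hedgeB : ∀ k, m ≤ k → k < m + m' → OnE M.toCyc B s(q k, q (k + 1)) := by
    intro k hk hk2
    rw [hqb k hk, hqb (k + 1) (by omega), Sym2.eq_swap]
    have h1 : m + m' - k = (m + m' - (k + 1)) + 1 := by omega
    rw [h1]
    exact hbE _ (by omega)
  have hedgeA : ∀ k, k < m → OnE M.toCyc A s(q k, q (k + 1)) := by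
    intro k hk
    rw [hqa k (by omega), hqa (k + 1) (by omega)]
    exact haE k hk
  have hadj : ∀ i, i < m + m' → Adj M.toCyc (q i) (q (i + 1)) := by
    intro i hi
    rcases Nat.lt_or_ge i m with h | h
    · exact ⟨A, hedgeA i h⟩
    · exact ⟨B, hedgeB i h hi⟩
  refine ⟨m + m', q, ?_, ?_, ?_, hadj, ?_⟩
  · rw [hqa 0 (by omega), ha0]
  · rw [hqb (m + m') (by omega), ← hb0]
    congr 1
    omega
  · -- injectivity
    have key : ∀ i j, i ≤ m → m < j → j ≤ m + m' → q i ≠ q j := by
      intro i j hi hj hj2 h
      rw [hqa i hi, hqb j (by omega)] at h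
      exact hbX (m + m' - j) (by omega) ⟨A, hAx, h ▸ haA i hi⟩
    intro i j hi hj h
    rcases Nat.lt_or_ge m i with h1 | h1
    · rcases Nat.lt_or_ge m j with h2 | h2
      · rw [hqb i (by omega), hqb j (by omega)] at h
        have h3 := hbinj _ _ (by omega) (by omega) h
        omega
      · exact absurd h.symm (key j i h2 h1 hi)
    · rcases Nat.lt_or_ge m j with h2 | h2
      · exact absurd h (key i j h1 h2 hj)
      · rw [hqa i h1, hqa j h2] at h
        exact hainj i j h1 h2 h
  · intro f hf i j hij hj hfi hfj k hik hkj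
    rcases hf with hf | hf
    · -- a face at `x`
      have hjm : j ≤ m := by
        by_contra h
        rw [hqb j (by omega)] at hfj
        exact hbX (m + m' - j) (by omega) ⟨f, hf, hfj⟩
      by_cases hfA : f = A
      · rw [hfA]
        exact hedgeA k (by omega)
      · rw [hqa j hjm] at hfj
        have h1 := haF f hf hfA j (by omega) hjm hfj
        have h2 : k = 0 := by omega
        have h3 : OnV M.toCyc f (q 0) := by
          rw [hqa 0 (by omega), ha0]
          exact hf
        have h4 : OnV M.toCyc f (q (0 + 1)) := by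
          rw [hqa (0 + 1) (by omega)]
          rw [h1] at hfj
          exact hfj
        rw [h2]
        exact hE2 f _ _ (hadj 0 (by omega)) h3 h4
    · -- a face at `y`
      have him : m ≤ i := by
        by_contra h
        rw [hqa i (by omega)] at hfi
        exact haY i (by omega) ⟨f, hf, hfi⟩
      by_cases hfB : f = B
      · rw [hfB]
        exact hedgeB k (by omega) (by omega)
      · rw [hqb i him] at hfi
        have h1 := hbF f hf hfB (m + m' - i) (by omega) (by omega) hfi
        have h2 : k = i := by omega
        have h3 : OnV M.toCyc f (q k) := by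
          rw [h2, hqb i him]
          exact hfi
        have h4 : OnV M.toCyc f (q (k + 1)) := by
          rw [hqb (k + 1) (by omega)]
          have h5 : m + m' - (k + 1) = 0 := by omega
          rw [h5, hb0]
          exact hf
        exact hE2 f _ _ (hadj k (by omega)) h3 h4

end Pool.Agent.helper84.NR
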